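import Mathlib

set_option autoImplicit false

namespace Pool.Agent.Helper65.LS

open Finset

variable {E : Type*} [Fintype E] [DecidableEq E]

omit [Fintype E] in
/-- Augmentation for finsets. -/
theorem aug (N : Matroid E) {I J : Finset E} (hI : N.Indep (I : Set E)) (hJ : N.Indep (J : Set E))
    (h : I.card < J.card) : ∃ e ∈ J, e ∉ I ∧ N.Indep ((insert e I : Finset E) : Set E) := by
  obtain ⟨e, he, he2, hi⟩ := hI.augment_finset hJ h
  exact ⟨e, he, he2, by rw [Finset.coe_insert]; exact hi⟩

/-- Extension up to a given size. -/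
theorem ext (N : Matroid E) {J : Finset E} (hJ : N.Indep (J : Set E)) :
    ∀ n : ℕ, ∀ I : Finset E, N.Indep (I : Set E) → I.card + n = J.card →
      ∃ A : Finset E, A ⊆ J \ I ∧ N.Indep ((I ∪ A : Finset E) : Set E) ∧ (I ∪ A).card = J.card
  | 0, I, hI, h => ⟨∅, by simp, by simpa using hI, by simpa using h⟩
  | n + 1, I, hI, h => by
    obtain ⟨e, heJ, heI, hi⟩ := aug N hI hJ (by omega)
    obtain ⟨A, hA, hA2, hA3⟩ := ext N hJ n (insert e I) hi (by
      rw [Finset.card_insert_of_notMem heI]; omega)
    refine ⟨insert e A, ?_, ?_, ?_⟩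
    · intro x hx
      rcases Finset.mem_insert.1 hx with rfl | hx
      · exact Finset.mem_sdiff.2 ⟨heJ, heI⟩
      · have := Finset.mem_sdiff.1 (hA hx)
        exact Finset.mem_sdiff.2 ⟨this.1, fun h => this.2 (Finset.mem_insert_of_mem h)⟩
    · have : I ∪ insert e A = insert e I ∪ A := by ext x; simp only [Finset.mem_union, Finset.mem_insert]; tauto
      rw [this]; exact hA2
    · have : I ∪ insert e A = insert e I ∪ A := by ext x; simp only [Finset.mem_union, Finset.mem_insert]; tauto
      rw [this]; exact hA3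

/-- Step 1 for one matroid. -/
theorem one (N : Matroid E) {B S : Finset E} (hB : N.Indep (B : Set E)) (hS : N.Indep (S : Set E))
    (hlt : B.card < S.card) : ∃ V : Finset E, V ⊆ S \ B ∧ N.Indep ((B ∪ V : Finset E) : Set E) ∧
      S.card ≤ (B ∪ V).card ∧
      ∀ F : Finset E, F ⊆ (S \ B) \ V → ∃ Y : Finset E, Y ⊆ B \ S ∧ Y.card = F.card ∧
        N.Indep (((B \ Y) ∪ V ∪ F : Finset E) : Set E) ∧
        ∀ y ∈ Y, ∃ e ∈ F, N.Indep ((insert e ((B ∪ V).erase y) : Finset E) : Set E) := by
  obtain ⟨A, hA, hA2, hA3⟩ := ext N hS (S.card - B.card) B hB (by omega)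
  refine ⟨A, hA, hA2, hA3.ge, ?_⟩
  intro F hF
  have hAS : ∀ x ∈ A, x ∈ S ∧ x ∉ B := fun x hx => Finset.mem_sdiff.1 (hA hx)
  have hFS : ∀ x ∈ F, (x ∈ S ∧ x ∉ B) ∧ x ∉ A := by
    intro x hx
    have := Finset.mem_sdiff.1 (hF hx)
    exact ⟨Finset.mem_sdiff.1 this.1, this.2⟩
  have hTS : A ∪ F ∪ (B ∩ S) ⊆ S := by
    intro x hx
    simp only [Finset.mem_union, Finset.mem_inter] at hx
    rcases hx with (hx | hx) | hx
    · exact (hAS x hx).1
    · exact (hFS x hx).1.1
    · exact hx.2
  have hT : N.Indep ((A ∪ F ∪ (B ∩ S) : Finset E) : Set E) :=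
    hS.subset (by exact_mod_cast hTS)
  have hTc : (A ∪ F ∪ (B ∩ S)).card ≤ (B ∪ A).card := by
    rw [hA3]; exact Finset.card_le_card hTS
  obtain ⟨D, hD, hD2, hD3⟩ := ext N hA2 ((B ∪ A).card - (A ∪ F ∪ (B ∩ S)).card) _ hT (by omega)
  set J := A ∪ F ∪ (B ∩ S) ∪ D with hJ
  have hDP : ∀ x ∈ D, (x ∈ B ∨ x ∈ A) ∧ ¬ ((x ∈ A ∨ x ∈ F) ∨ x ∈ B ∧ x ∈ S) := by
    intro x hx
    have := Finset.mem_sdiff.1 (hD hx)
    simpa only [Finset.mem_union, Finset.mem_inter] using this
  have hJe : (B \ (B \ J)) ∪ A ∪ F = J := by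
    ext x
    simp only [hJ, Finset.mem_union, Finset.mem_sdiff, Finset.mem_inter]
    have h1 := hDP x
    tauto
  have hYS : B \ J ⊆ B \ S := by
    intro x hx
    rw [Finset.mem_sdiff] at hx
    rw [Finset.mem_sdiff]
    refine ⟨hx.1, fun h => hx.2 ?_⟩
    simp only [hJ, Finset.mem_union, Finset.mem_inter]
    exact Or.inl (Or.inr ⟨hx.1, h⟩)
  refine ⟨B \ J, hYS, ?_, ?_, ?_⟩
  · -- card
    have h1 : Disjoint (B ∪ A) F := by
      rw [Finset.disjoint_left]
      intro x hx hxF
      rcases Finset.mem_union.1 hx with h | h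
      · exact (hFS x hxF).1.2 h
      · exact (hFS x hxF).2 h
    have h2 : J = ((B ∪ A) \ (B \ J)) ∪ F := by
      conv_lhs => rw [← hJe]
      ext x
      simp only [Finset.mem_union, Finset.mem_sdiff]
      have := hAS x
      tauto
    have h3 : (((B ∪ A) \ (B \ J)) ∪ F).card = ((B ∪ A) \ (B \ J)).card + F.card :=
      Finset.card_union_of_disjoint (h1.mono_left Finset.sdiff_subset)
    have h4 : ((B ∪ A) \ (B \ J)).card = (B ∪ A).card - (B \ J).card :=
      Finset.card_sdiff_of_subset (Finset.sdiff_subset.trans Finset.subset_union_left)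
    have h5 : (B \ J).card ≤ (B ∪ A).card :=
      Finset.card_le_card (Finset.sdiff_subset.trans Finset.subset_union_left)
    rw [← h2] at h3
    omega
  · rw [hJe]; exact hD2
  · intro y hy
    have hyB := (Finset.mem_sdiff.1 hy).1
    have hyJ := (Finset.mem_sdiff.1 hy).2
    have h1 : N.Indep (((B ∪ A).erase y : Finset E) : Set E) :=
      hA2.subset (by exact_mod_cast Finset.erase_subset _ _)
    obtain ⟨e, heJ, heP, hi⟩ := aug N h1 hD2 (by
      rw [hD3, Finset.card_erase_of_mem (Finset.mem_union_left _ hyB)]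
      have : 0 < (B ∪ A).card := Finset.card_pos.2 ⟨y, Finset.mem_union_left _ hyB⟩
      omega)
    refine ⟨e, ?_, hi⟩
    have hey : e ≠ y := fun h => hyJ (h ▸ heJ)
    have heP' : e ∉ B ∧ e ∉ A := by
      constructor
      · intro h; exact heP (Finset.mem_erase.2 ⟨hey, Finset.mem_union_left _ h⟩)
      · intro h; exact heP (Finset.mem_erase.2 ⟨hey, Finset.mem_union_right _ h⟩)
    have h2 := heJ
    rw [← hJe] at h2
    simp only [Finset.mem_union, Finset.mem_sdiff] at h2
    tauto

theorem step1 {k : ℕ} (hk : 2 ≤ k) (M : Fin k → Matroid E) {B S : Finset E}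
    (hB : ∀ i, (M i).Indep (B : Set E)) (hS : ∀ i, (M i).Indep (S : Set E))
    (hlt : B.card < S.card)
    (hno : ¬ ∃ X : Finset E, X ⊆ S \ B ∧ X.card ≤ 2 ∧ ∃ B' : Finset E, B' ⊆ B ∪ X ∧
      (∀ i, (M i).Indep (B' : Set E)) ∧ B.card < B'.card) :
    ∃ F Y : Fin k → Finset E, (∀ l, F l ⊆ S \ B) ∧ (∀ l, Y l ⊆ B \ S) ∧
      (∀ l m, l ≠ m → Disjoint (F l) (F m)) ∧ (∀ l m, l ≠ m → Disjoint (Y l) (Y m)) ∧
      (∀ l, (Y l).card = (F l).card) ∧
      (∀ l, (M l).Indep ((B ∪ (Finset.univ.biUnion F \ F l) : Finset E) : Set E)) ∧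
      (∀ l, (M l).Indep (((B \ Y l) ∪ Finset.univ.biUnion F : Finset E) : Set E)) ∧
      2 * S.card ≤ k * B.card + ∑ l, (F l).card := by
  classical
  choose V hVS hVi hVc hVY using fun l => one (M l) (hB l) (hS l) hlt
  -- the defect sets
  set D : Fin k → Finset E := fun l => (S \ B) \ V l with hD
  set c : E → ℕ := fun e => (Finset.univ.filter (fun l => e ∈ D l)).card with hc
  have hc1 : ∀ e ∈ S \ B, 1 ≤ c e := by
    intro e he
    by_contra h
    have h0 : ∀ l, e ∈ V l := by
      intro l
      by_contra hl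
      apply h
      exact Finset.card_pos.2 ⟨l, Finset.mem_filter.2 ⟨Finset.mem_univ _, Finset.mem_sdiff.2 ⟨he, hl⟩⟩⟩
    refine hno ⟨{e}, by simpa using Finset.mem_sdiff.1 he, by simp, insert e B, ?_, ?_, ?_⟩
    · intro x hx; simp only [Finset.mem_insert] at hx; simp only [Finset.mem_union, Finset.mem_singleton]; tauto
    · intro i
      refine (hVi i).subset ?_
      have : insert e B ⊆ B ∪ V i := by
        intro x hx
        rcases Finset.mem_insert.1 hx with rfl | hx
        · exact Finset.mem_union_right _ (h0 i)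
        · exact Finset.mem_union_left _ hx
      exact_mod_cast this
    · rw [Finset.card_insert_of_notMem (Finset.mem_sdiff.1 he).2]; omega
  set F : Fin k → Finset E := fun l => (D l).filter (fun e => c e = 1) with hF
  have hFD : ∀ l, F l ⊆ D l := fun l => Finset.filter_subset _ _
  have huni : ∀ l m e, e ∈ F l → e ∈ D m → l = m := by
    intro l m e hl hm
    have h1 : c e = 1 := (Finset.mem_filter.1 hl).2
    obtain ⟨a, ha⟩ := Finset.card_eq_one.1 h1
    have h2 : l ∈ Finset.univ.filter (fun l => e ∈ D l) :=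
      Finset.mem_filter.2 ⟨Finset.mem_univ _, hFD l hl⟩
    have h3 : m ∈ Finset.univ.filter (fun l => e ∈ D l) :=
      Finset.mem_filter.2 ⟨Finset.mem_univ _, hm⟩
    rw [ha] at h2 h3
    rw [Finset.mem_singleton.1 h2, Finset.mem_singleton.1 h3]
  have hFV : ∀ l m e, e ∈ F l → l ≠ m → e ∈ V m := by
    intro l m e hl hlm
    by_contra h
    exact hlm (huni l m e hl (Finset.mem_sdiff.2 ⟨(Finset.mem_sdiff.1 (hFD l hl)).1, h⟩))
  choose Y hYS hYc hYi hYe using fun l => hVY l (F l) (hFD l)
  have hFd : ∀ l m, l ≠ m → Disjoint (F l) (F m) := by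
    intro l m hlm
    rw [Finset.disjoint_left]
    intro e he he'
    exact hlm (huni l m e he (hFD m he'))
  refine ⟨F, Y, fun l => (hFD l).trans Finset.sdiff_subset, hYS, hFd, ?_, hYc, ?_, ?_, ?_⟩
  · intro l m hlm
    rw [Finset.disjoint_left]
    intro y hy hy'
    obtain ⟨e, he, hei⟩ := hYe l y hy
    obtain ⟨e', he', hei'⟩ := hYe m y hy'
    have hee : e ≠ e' := fun h => (Finset.disjoint_left.1 (hFd l m hlm)) he (h ▸ he')
    have heB := Finset.mem_sdiff.1 (Finset.mem_sdiff.1 (hFD l he)).1
    have heB' := Finset.mem_sdiff.1 (Finset.mem_sdiff.1 (hFD m he')).1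
    have hyB := (Finset.mem_sdiff.1 (hYS l hy)).1
    refine hno ⟨{e, e'}, ?_, Finset.card_le_two, insert e (insert e' (B.erase y)), ?_, ?_, ?_⟩
    · intro x hx
      simp only [Finset.mem_insert, Finset.mem_singleton] at hx
      rcases hx with rfl | rfl
      · exact Finset.mem_sdiff.2 heB
      · exact Finset.mem_sdiff.2 heB'
    · intro x hx
      simp only [Finset.mem_insert, Finset.mem_erase] at hx
      simp only [Finset.mem_union, Finset.mem_insert, Finset.mem_singleton]
      tauto
    · intro i
      by_cases hil : i = l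
      · subst hil
        refine hei.subset ?_
        have : insert e (insert e' (B.erase y)) ⊆ insert e ((B ∪ V i).erase y) := by
          intro x hx
          simp only [Finset.mem_insert, Finset.mem_erase, Finset.mem_union] at hx ⊢
          have h1 := hFV m i e' he' (Ne.symm hlm)
          rcases hx with rfl | rfl | hx
          · exact Or.inl rfl
          · refine Or.inr ⟨fun h => heB'.2 (h ▸ hyB), Or.inr h1⟩
          · exact Or.inr ⟨hx.1, Or.inl hx.2⟩
        exact_mod_cast this
      · by_cases him : i = m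
        · subst him
          refine hei'.subset ?_
          have : insert e (insert e' (B.erase y)) ⊆ insert e' ((B ∪ V i).erase y) := by
            intro x hx
            simp only [Finset.mem_insert, Finset.mem_erase, Finset.mem_union] at hx ⊢
            have h1 := hFV l i e he hlm
            rcases hx with rfl | rfl | hx
            · refine Or.inr ⟨fun h => heB.2 (h ▸ hyB), Or.inr h1⟩
            · exact Or.inl rfl
            · exact Or.inr ⟨hx.1, Or.inl hx.2⟩
          exact_mod_cast this
        · refine (hVi i).subset ?_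
          have : insert e (insert e' (B.erase y)) ⊆ B ∪ V i := by
            intro x hx
            simp only [Finset.mem_insert, Finset.mem_erase, Finset.mem_union] at hx ⊢
            rcases hx with rfl | rfl | hx
            · exact Or.inr (hFV l i _ he (Ne.symm hil))
            · exact Or.inr (hFV m i _ he' (Ne.symm him))
            · exact Or.inl hx.2
          exact_mod_cast this
    · rw [Finset.card_insert_of_notMem, Finset.card_insert_of_notMem, Finset.card_erase_of_mem hyB]
      · have : 0 < B.card := Finset.card_pos.2 ⟨y, hyB⟩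
        omega
      · intro h; exact heB'.2 (Finset.mem_of_mem_erase h)
      · intro h
        rcases Finset.mem_insert.1 h with h | h
        · exact hee h
        · exact heB.2 (Finset.mem_of_mem_erase h)
  · intro l
    refine (hVi l).subset ?_
    have : B ∪ (Finset.univ.biUnion F \ F l) ⊆ B ∪ V l := by
      intro x hx
      simp only [Finset.mem_union, Finset.mem_sdiff, Finset.mem_biUnion, Finset.mem_univ,
        true_and] at hx ⊢
      rcases hx with hx | ⟨⟨m, hm⟩, hl⟩
      · exact Or.inl hx
      · refine Or.inr (hFV m l x hm ?_)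
        rintro rfl
        exact hl hm
    exact_mod_cast this
  · intro l
    refine (hYi l).subset ?_
    have : (B \ Y l) ∪ Finset.univ.biUnion F ⊆ (B \ Y l) ∪ V l ∪ F l := by
      intro x hx
      simp only [Finset.mem_union, Finset.mem_sdiff, Finset.mem_biUnion, Finset.mem_univ,
        true_and] at hx ⊢
      rcases hx with hx | ⟨m, hm⟩
      · exact Or.inl (Or.inl hx)
      · by_cases h : m = l
        · subst h; exact Or.inr hm
        · exact Or.inl (Or.inr (hFV m l x hm h))
    exact_mod_cast this
  · -- counting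
    have h1 : ∀ l, (D l).card ≤ (B \ S).card := by
      intro l
      have e1 : (D l).card = (S \ B).card - (V l).card := Finset.card_sdiff_of_subset (hVS l)
      have e2 : (B ∪ V l).card = B.card + (V l).card := by
        refine Finset.card_union_of_disjoint ?_
        rw [Finset.disjoint_left]
        intro x hx hx'
        exact (Finset.mem_sdiff.1 (hVS l hx')).2 hx
      have e3 : (S \ B).card + (S ∩ B).card = S.card := Finset.card_sdiff_add_card_inter S B
      have e4 : (B \ S).card + (B ∩ S).card = B.card := Finset.card_sdiff_add_card_inter B S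
      have e5 : (S ∩ B).card = (B ∩ S).card := by rw [Finset.inter_comm]
      have e6 := hVc l
      have e7 : (V l).card ≤ (S \ B).card := Finset.card_le_card (hVS l)
      omega
    have h2 : ∑ l, (D l).card = ∑ e ∈ S \ B, c e := by
      have e1 : ∀ l, (D l).card = ∑ e ∈ S \ B, if e ∈ D l then 1 else 0 := by
        intro l
        rw [Finset.sum_ite_mem, Finset.inter_eq_right.2 (show D l ⊆ S \ B from Finset.sdiff_subset)]
        simp only [Finset.sum_const, smul_eq_mul, mul_one]
      have e2 : ∀ e, c e = ∑ l, if e ∈ D l then 1 else 0 := by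
        intro e
        simp only [hc, Finset.card_filter]
      simp only [e1, e2]
      exact Finset.sum_comm
    have h3 : ∑ l, (F l).card = ∑ e ∈ S \ B, if c e = 1 then 1 else 0 := by
      have e1 : ∀ l, (F l).card = ∑ e ∈ S \ B, if e ∈ F l then 1 else 0 := by
        intro l
        rw [Finset.sum_ite_mem, Finset.inter_eq_right.2 (show F l ⊆ S \ B from (hFD l).trans Finset.sdiff_subset)]
        simp only [Finset.sum_const, smul_eq_mul, mul_one]
      simp only [e1]
      rw [Finset.sum_comm]
      refine Finset.sum_congr rfl fun e _ => ?_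
      by_cases h : c e = 1
      · rw [if_pos h]
        have e2 : ∀ l, (if e ∈ F l then 1 else 0) = if e ∈ D l then 1 else 0 := by
          intro l
          simp only [hF, Finset.mem_filter, h, and_true]
        simp only [e2]
        have e3 : (∑ l, if e ∈ D l then 1 else 0) = c e := by
          simp only [hc, Finset.card_filter]
        rw [e3, h]
      · rw [if_neg h]
        refine Finset.sum_eq_zero fun l _ => ?_
        rw [if_neg]
        intro hl
        exact h (Finset.mem_filter.1 hl).2
    have h4 : 2 * (S \ B).card ≤ ∑ e ∈ S \ B, (c e + if c e = 1 then 1 else 0) := by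
      rw [Finset.card_eq_sum_ones, Finset.mul_sum]
      refine Finset.sum_le_sum fun e he => ?_
      have := hc1 e he
      split_ifs with h <;> omega
    rw [Finset.sum_add_distrib, ← h2, ← h3] at h4
    have h5 : ∑ l, (D l).card ≤ k * (B \ S).card := by
      calc ∑ l, (D l).card ≤ ∑ _l : Fin k, (B \ S).card := Finset.sum_le_sum fun l _ => h1 l
        _ = k * (B \ S).card := by simp
    have e3 : (S \ B).card + (S ∩ B).card = S.card := Finset.card_sdiff_add_card_inter S B
    have e4 : (B \ S).card + (B ∩ S).card = B.card := Finset.card_sdiff_add_card_inter B S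
    have e5 : (S ∩ B).card = (B ∩ S).card := by rw [Finset.inter_comm]
    have e6 : k * B.card = k * (B \ S).card + k * (B ∩ S).card := by rw [← e4]; ring
    have e7 : 2 * (B ∩ S).card ≤ k * (B ∩ S).card := Nat.mul_le_mul_right _ hk
    omega

end Pool.Agent.Helper65.LS
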